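import Pool.Graph.R_pool_sql_team_668148b0.Results.MP_8c874d_gt.NotRadon

/-!
# A Corson compact space which is not hereditarily α-realcompact, from `◊*`

We work in the spaces `K e` of `Results/MP_8c874d_gt/NotRadon.lean` (library). A set `z` is
`f`-sparse if every `b ∈ z` is larger than `f u` for all finite sets `u` of elements of `z` below
`b`. From `◊*` we get a subspace `Z` of `K e` such that the relatively closed sets which contain
all `f`-sparse points of `Z` for some `f` form a maximal centered family of closed sets with the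
countable intersection property and with empty intersection.
-/

set_option autoImplicit false

namespace Pool.Agent.H739.AR

open Set Cardinal Topology
open Pool.Agent.Results.MP_8c874d_gt.NotRadon

/-- The principle `◊*`: there are countable families `{B a n : n ∈ ℕ}` of subsets of `a`
(`a < ω₁`; the values `B a n x` for `x ≥ a` are irrelevant) such that for every set `X ⊆ ω₁`
there is a closed unbounded set `C ⊆ ω₁` such that `X ∩ a` belongs to the family of `a` for all
`a ∈ C`. -/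
def DiamondStar : Prop :=
  ∃ B : Om → ℕ → Om → Prop, ∀ X : Om → Prop, ∃ C : Om → Prop,
    (∀ a, ∃ b, a < b ∧ C b) ∧
    (∀ a, (∃ b, b < a) → (∀ b, b < a → ∃ c, (b < c ∧ c < a) ∧ C c) → C a) ∧
    ∀ a, C a → ∃ n, ∀ x, x < a → (X x ↔ B a n x)

variable {e : Om → Om → ℕ}

/-- The set `z` is `f`-sparse. -/
def Sp (f : Finset Om → Om) (z : Set Om) : Prop :=
  ∀ b ∈ z, ∀ u : Finset Om, (∀ a ∈ u, a ∈ z ∧ a < b) → f u < b

theorem Sp.anti {f f' : Finset Om → Om} (h : ∀ u, f u ≤ f' u) {z : Set Om} (hz : Sp f' z) :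
    Sp f z :=
  fun b hb u hu => (h u).trans_lt (hz b hb u hu)

theorem isClosed_sp (f : Finset Om → Om) : IsClosed {x : K e | Sp f (supp x)} := by
  have hopen : ∀ a : Om, IsOpen {x : K e | x.1 a = true} := fun a =>
    (isOpen_discrete ({true} : Set Bool)).preimage (f := fun x : K e => x.1 a)
      ((continuous_apply a).comp continuous_subtype_val)
  have h0 : {x : K e | Sp f (supp x)} = {x : K e | ∀ (b : Om) (u : Finset Om),
      (x.1 b = true ∧ ∀ a ∈ u, x.1 a = true) → ((∀ a ∈ u, a < b) → f u < b)} := by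
    ext x
    constructor
    · rintro h b u ⟨hb, hu⟩ hlt
      exact h b hb u fun a ha => ⟨hu a ha, hlt a ha⟩
    · intro h b hb u hu
      exact h b u ⟨hb, fun a ha => (hu a ha).1⟩ fun a ha => (hu a ha).2
  rw [h0]
  simp only [Set.ofPred_forall]
  refine isClosed_iInter fun b => isClosed_iInter fun u => ?_
  refine isClosed_imp ?_ isClosed_const
  have h1 : {x : K e | ∀ a ∈ u, x.1 a = true} = ⋂ a ∈ u, {x : K e | x.1 a = true} := by
    ext x
    simp
  have h2 : IsOpen {x : K e | ∀ a ∈ u, x.1 a = true} := by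
    rw [h1]
    exact isOpen_biInter_finset fun a _ => hopen a
  exact (hopen b).inter h2

/-! ### Closure points -/

/-- a strict upper bound of a countable family -/
theorem bnd {ι : Type} [Countable ι] (g : ι → Om) : ∃ a, ∀ i, g i < a := exists_sup ι g

theorem exists_closed (F : Finset Om → Om) (a : Om) :
    ∃ l, a < l ∧ ∀ u : Finset Om, (∀ x ∈ u, x < l) → F u < l := by
  classical
  have h1 : ∀ b : Om, ∃ c, b < c ∧ ∀ u : Finset Om, (∀ x ∈ u, x ≤ b) → F u < c := by
    intro b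
    have hc : {u : Finset Om | (u : Set Om) ⊆ Iic b}.Countable := countable_finsets (by
      have : Iic b = insert b (Iio b) := by
        ext x
        simp [le_iff_eq_or_lt]
      rw [this]
      exact (countable_Iio b).insert _)
    obtain ⟨c, hc'⟩ := exists_bound (insert b (F '' {u : Finset Om | (u : Set Om) ⊆ Iic b}))
      ((hc.image F).insert b)
    exact ⟨c, hc' b (mem_insert _ _), fun u hu => hc' _ (mem_insert_of_mem _ ⟨u, hu, rfl⟩)⟩
  choose g hg1 hg2 using h1
  let A : ℕ → Om := fun k => Nat.rec a (fun _ b => g b) k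
  have hA : ∀ k, A (k + 1) = g (A k) := fun k => rfl
  have hAm : Monotone A := monotone_nat_of_le_succ fun k => by
    rw [hA]
    exact (hg1 _).le
  obtain ⟨l0, hl0⟩ := bnd A
  obtain ⟨l, hl, hmin⟩ := WellFounded.has_min (wellFounded_lt (α := Om)) {l | ∀ k, A k < l}
    ⟨l0, hl0⟩
  refine ⟨l, hl 0, fun u hu => ?_⟩
  have h2 : ∀ x : Om, x < l → ∃ k, x ≤ A k := by
    intro x hx
    by_contra hc
    push Not at hc
    exact hmin x hc hx
  have h3 : ∃ k, ∀ x ∈ u, x ≤ A k := by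
    induction u using Finset.induction_on with
    | empty => exact ⟨0, by simp⟩
    | insert x u _ ih =>
      obtain ⟨k, hk⟩ := ih fun y hy => hu y (Finset.mem_insert_of_mem hy)
      obtain ⟨k', hk'⟩ := h2 x (hu x (Finset.mem_insert_self _ _))
      refine ⟨max k k', fun y hy => ?_⟩
      rcases Finset.mem_insert.1 hy with rfl | hy
      · exact hk'.trans (hAm (le_max_right _ _))
      · exact (hk y hy).trans (hAm (le_max_left _ _))
  obtain ⟨k, hk⟩ := h3
  exact (hg2 (A k) u hk).trans_le ((hA k) ▸ (hl (k + 1)).le)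

/-! ### Tasks -/

/-- The iterated quantifier below `l`. -/
def FubL (l : Om) : ℕ → (Finset Om → Prop) → Finset Om → Prop
  | 0, Q, s => Q s
  | n + 1, Q, s => ∀ β, β < l → ∃ x, β < x ∧ x < l ∧ FubL l n Q (insert x s)

/-- the sets `s` which can be put on top of `w` so as to fulfil the task `S` -/
def QL (e : Om → Om → ℕ) (l : Om) (S : Finset Om → Finset Om → Prop) (w s : Finset Om) : Prop :=
  Good e ((w ∪ s : Finset Om) : Set Om) ∧
    ∃ g : Finset Om, (∀ a ∈ g, a < l) ∧ S s g ∧ ∀ a ∈ g, a ∉ w ∪ s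

/-- The task `S` can be fulfilled on top of all good finite sets between `c` and `l`. -/
def Loc (e : Om → Om → ℕ) (l c : Om) (S : Finset Om → Finset Om → Prop) : Prop :=
  ∃ n, ∀ w : Finset Om, Good e (w : Set Om) → (∀ a ∈ w, c < a ∧ a < l) →
    FubL l n (QL e l S w) ∅

/-- The set `z` is cofinal in some `l`, and it fulfils all tasks guessed at `l`. -/
def InZ (e : Om → Om → ℕ) (B : Om → ℕ → Om → Prop) (φ : Finset Om → Finset Om → Om)
    (z : Set Om) : Prop :=
  z.Nonempty ∧ ∃ l, (∀ x ∈ z, x < l) ∧ (∀ b, b < l → ∃ x ∈ z, b < x) ∧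
    ∀ m c, (∀ x ∈ z, c < x) → Loc e l c (fun s g => B l m (φ s g)) →
      ∃ s g : Finset Om, (s : Set Om) ⊆ z ∧ (∀ a ∈ g, a < l ∧ a ∉ z) ∧ B l m (φ s g)

theorem FubL.congr {l : Om} {n : ℕ} {Q Q' : Finset Om → Prop}
    (h : ∀ s, (∀ a ∈ s, a < l) → Q s → Q' s) {s : Finset Om} (hs : ∀ a ∈ s, a < l)
    (hQ : FubL l n Q s) : FubL l n Q' s := by
  classical
  induction n generalizing s with
  | zero => exact h s hs hQ
  | succ n ih =>
    intro β hβ
    obtain ⟨x, hx, hxl, hx'⟩ := hQ β hβ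
    refine ⟨x, hx, hxl, ih (fun a ha => ?_) hx'⟩
    rcases Finset.mem_insert.1 ha with rfl | ha
    · exact hxl
    · exact hs a ha

/-- finite maxima below `l` -/
theorem exists_max_lt {l b : Om} (hb : b < l) (u : Finset Om) (hu : ∀ x ∈ u, x < l) :
    ∃ β, β < l ∧ b ≤ β ∧ ∀ x ∈ u, x ≤ β := by
  classical
  induction u using Finset.induction_on with
  | empty => exact ⟨b, hb, le_rfl, by simp⟩
  | insert x u _ ih =>
    obtain ⟨β, h1, h2, h3⟩ := ih fun y hy => hu y (Finset.mem_insert_of_mem hy)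
    refine ⟨max x β, max_lt (hu x (Finset.mem_insert_self _ _)) h1, h2.trans (le_max_right _ _),
      fun y hy => ?_⟩
    rcases Finset.mem_insert.1 hy with rfl | hy
    · exact le_max_left _ _
    · exact (h3 y hy).trans (le_max_right _ _)

/-- Going up along the iterated quantifier with sparse elements. -/
theorem exists_topL {l : Om} {f : Finset Om → Om}
    (hf : ∀ u : Finset Om, (∀ x ∈ u, x < l) → f u < l)
    {Q : Finset Om → Prop} (w r : Finset Om) (hr : ∀ a ∈ r, a < l)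
    (k : ℕ) : ∀ s : Finset Om, (∀ a ∈ w ∪ s, a < l) → FubL l k Q s →
      ∃ s', s ⊆ s' ∧ (∀ a ∈ s', a < l) ∧ Q s' ∧
        ∀ b ∈ s', b ∉ s → (∀ a ∈ w ∪ s ∪ r, a < b) ∧
          ∀ u : Finset Om, (∀ a ∈ u, a ∈ w ∪ s' ∧ a < b) → f u < b := by
  classical
  induction k with
  | zero =>
    exact fun s hs hQ => ⟨s, Finset.Subset.refl _, fun a ha => hs a (Finset.mem_union_right _ ha),
      hQ, fun b hb hb' => absurd hb hb'⟩
  | succ k ih =>
    intro s hs hQ
    -- an upper bound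
    obtain ⟨β, hβl, -, hβ⟩ := exists_max_lt (hf ∅ (by simp)) ((w ∪ s ∪ r) ∪
      ((w ∪ s).powerset.image f)) (by
        intro x hx
        rcases Finset.mem_union.1 hx with hx | hx
        · rcases Finset.mem_union.1 hx with hx | hx
          · exact hs x hx
          · exact hr x hx
        · obtain ⟨u, hu, rfl⟩ := Finset.mem_image.1 hx
          exact hf u fun x hx => hs x (Finset.mem_powerset.1 hu hx))
    obtain ⟨x, hx, hxl, hx'⟩ := hQ β hβl
    obtain ⟨s', h1, h2, h3, h4⟩ := ih (insert x s) (fun a ha => by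
      rcases Finset.mem_union.1 ha with ha | ha
      · exact hs a (Finset.mem_union_left _ ha)
      · rcases Finset.mem_insert.1 ha with rfl | ha
        · exact hxl
        · exact hs a (Finset.mem_union_right _ ha)) hx'
    have hbelow : ∀ a ∈ w ∪ s ∪ r, a < x := fun a ha =>
      (hβ a (Finset.mem_union_left _ ha)).trans_lt hx
    refine ⟨s', (Finset.subset_insert _ _).trans h1, h2, h3, fun b hb hbs => ?_⟩
    by_cases hbx : b = x
    · subst hbx
      refine ⟨hbelow, fun u hu => ?_⟩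
      have hus : u ⊆ w ∪ s := by
        intro a ha
        obtain ⟨ha1, ha2⟩ := hu a ha
        by_contra hc
        rcases Finset.mem_union.1 ha1 with h5 | h5
        · exact hc (Finset.mem_union_left _ h5)
        · have h6 : a ∉ insert b s := by
            intro h7
            rcases Finset.mem_insert.1 h7 with rfl | h7
            · exact lt_irrefl _ ha2
            · exact hc (Finset.mem_union_right _ h7)
          have h7 := (h4 a h5 h6).1 b (Finset.mem_union_left _ (Finset.mem_union_right _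
            (Finset.mem_insert_self _ _)))
          exact lt_asymm ha2 h7
      exact (hβ (f u) (Finset.mem_union_right _ (Finset.mem_image.2
        ⟨u, Finset.mem_powerset.2 hus, rfl⟩))).trans_lt hx
    · have h5 : b ∉ insert x s := by
        intro h
        rcases Finset.mem_insert.1 h with h | h
        · exact hbx h
        · exact hbs h
      obtain ⟨h6, h7⟩ := h4 b hb h5
      refine ⟨fun a ha => h6 a ?_, h7⟩
      rcases Finset.mem_union.1 ha with ha | ha
      · rcases Finset.mem_union.1 ha with ha | ha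
        · exact Finset.mem_union_left _ (Finset.mem_union_left _ ha)
        · exact Finset.mem_union_left _ (Finset.mem_union_right _ (Finset.mem_insert_of_mem ha))
      · exact Finset.mem_union_right _ ha


/-! ### Existence of sparse points of `Z` -/

theorem exists_base (he : ∀ b n, {a | a < b ∧ e a b ≤ n}.Finite) :
    ∃ γ0 : Om, ∀ w : Finset Om, Good e (w : Set Om) → (∀ a ∈ w, γ0 < a) →
      ∀ β, ∃ x, β < x ∧ Good e ((w ∪ insert x ∅ : Finset Om) : Set Om) := by
  obtain ⟨γ, hγ⟩ := exists_good_base (O := (Set.univ : Set (K e))) he (n := 1) (by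
    intro β
    obtain ⟨x, hx⟩ := exists_bound {β} (countable_singleton β)
    refine ⟨x, hx β rfl, ?_, ∅, subset_univ _, by simp⟩
    simpa using good_singleton (e := e) x)
  refine ⟨γ, fun w hw hwa β => ?_⟩
  obtain ⟨x, hx, hx'⟩ := hγ w hw hwa β
  exact ⟨x, hx, hx'.1⟩

theorem Sp.union {f : Finset Om → Om} {w s : Finset Om} (hw : Sp f (w : Set Om))
    (h : ∀ b ∈ s, (∀ a ∈ w, a < b) ∧ ∀ u : Finset Om, (∀ a ∈ u, a ∈ w ∪ s ∧ a < b) → f u < b) :
    Sp f ((w ∪ s : Finset Om) : Set Om) := by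
  classical
  intro b hb u hu
  rw [Finset.mem_coe] at hb
  have hu' : ∀ a ∈ u, a ∈ w ∪ s ∧ a < b := fun a ha => ⟨Finset.mem_coe.1 (hu a ha).1, (hu a ha).2⟩
  by_cases hbs : b ∈ s
  · exact (h b hbs).2 u hu'
  · have hbw : b ∈ w := (Finset.mem_union.1 hb).resolve_right hbs
    refine hw b (Finset.mem_coe.2 hbw) u fun a ha => ⟨?_, (hu' a ha).2⟩
    rcases Finset.mem_union.1 (hu' a ha).1 with h1 | h1
    · exact Finset.mem_coe.2 h1
    · exact absurd ((h a h1).1 b hbw) (lt_asymm (hu' a ha).2)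

/-- the invariant of the construction -/
def Inv (e : Om → Om → ℕ) (f : Finset Om → Om) (γ0 l : Om) (p : Finset Om × Finset Om) : Prop :=
  Good e (p.1 : Set Om) ∧ Sp f (p.1 : Set Om) ∧ p.1.Nonempty ∧ (∀ a ∈ p.1, γ0 < a ∧ a < l) ∧
    (∀ a ∈ p.2, a < l) ∧ ∀ a ∈ p.2, a ∉ p.1

theorem step {f : Finset Om → Om} {γ0 l : Om}
    (hf : ∀ u : Finset Om, (∀ x ∈ u, x < l) → f u < l)
    (hl : ∀ w : Finset Om, Good e (w : Set Om) → (∀ a ∈ w, γ0 < a ∧ a < l) →
      ∀ β, β < l → ∃ x, β < x ∧ x < l ∧ Good e ((w ∪ insert x ∅ : Finset Om) : Set Om))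
    (S : Finset Om → Finset Om → Prop) (β : Om) (hβ : β < l) (p : Finset Om × Finset Om)
    (hp : Inv e f γ0 l p) :
    ∃ p', Inv e f γ0 l p' ∧ p.1 ⊆ p'.1 ∧ p.2 ⊆ p'.2 ∧ (∃ x ∈ p'.1, β < x) ∧
      ((∀ a ∈ p.1, β < a) → Loc e l β S →
        ∃ s g : Finset Om, s ⊆ p'.1 ∧ g ⊆ p'.2 ∧ S s g) := by
  classical
  obtain ⟨w, r⟩ := p
  obtain ⟨h1, h2, h3, h4, h5, h6⟩ := hp
  simp only at h1 h2 h3 h4 h5 h6 ⊢
  -- first add an element above `β`
  obtain ⟨s1, -, k2, ⟨k3, k3'⟩, k4⟩ := exists_topL hf (Q := fun s =>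
    Good e ((w ∪ s : Finset Om) : Set Om) ∧ s.Nonempty) w (insert β r) (by
      intro a ha
      rcases Finset.mem_insert.1 ha with rfl | ha
      · exact hβ
      · exact h5 a ha) 1 ∅ (by
      intro a ha
      rw [Finset.union_empty] at ha
      exact (h4 a ha).2) (by
      intro β' hβ'
      obtain ⟨x, hx, hxl, hx'⟩ := hl w h1 h4 β' hβ'
      exact ⟨x, hx, hxl, hx', ⟨x, by simp⟩⟩)
  have k5 : ∀ b ∈ s1, (∀ a ∈ w, a < b) ∧ β < b ∧ (∀ a ∈ r, a < b) ∧
      ∀ u : Finset Om, (∀ a ∈ u, a ∈ w ∪ s1 ∧ a < b) → f u < b := by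
    intro b hb
    obtain ⟨m1, m2⟩ := k4 b hb (by simp)
    refine ⟨fun a ha => m1 a (by simp [ha]), m1 β (by simp), fun a ha => m1 a (by simp [ha]), m2⟩
  have hw1 : Sp f ((w ∪ s1 : Finset Om) : Set Om) :=
    h2.union fun b hb => ⟨(k5 b hb).1, (k5 b hb).2.2.2⟩
  have hinv1 : Inv e f γ0 l (w ∪ s1, r) := by
    refine ⟨k3, hw1, h3.mono Finset.subset_union_left, fun a ha => ?_, h5, fun a ha ha' => ?_⟩
    · rcases Finset.mem_union.1 ha with ha | ha
      · exact h4 a ha
      · obtain ⟨x, hx⟩ := h3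
        exact ⟨(h4 x hx).1.trans ((k5 a ha).1 x hx), k2 a ha⟩
    · rcases Finset.mem_union.1 ha' with ha' | ha'
      · exact h6 a ha ha'
      · exact lt_irrefl _ ((k5 a ha').2.2.1 a ha)
  obtain ⟨x1, hx1⟩ := k3'
  by_cases hT : (∀ a ∈ w, β < a) ∧ Loc e l β S
  · obtain ⟨hT1, n, hT2⟩ := hT
    have hTw : ∀ a ∈ w ∪ s1, β < a ∧ a < l := by
      intro a ha
      refine ⟨?_, (hinv1.2.2.2.1 a ha).2⟩
      rcases Finset.mem_union.1 ha with ha | ha
      · exact hT1 a ha
      · exact (k5 a ha).2.1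
    obtain ⟨s2, -, m2, ⟨m3, g, m4, m5, m6⟩, m7⟩ := exists_topL hf (w ∪ s1) r h5 n ∅ (by
      intro a ha
      rw [Finset.union_empty] at ha
      exact (hTw a ha).2) (hT2 (w ∪ s1) k3 hTw)
    have m8 : ∀ b ∈ s2, (∀ a ∈ w ∪ s1, a < b) ∧ (∀ a ∈ r, a < b) ∧
        ∀ u : Finset Om, (∀ a ∈ u, a ∈ w ∪ s1 ∪ s2 ∧ a < b) → f u < b := by
      intro b hb
      obtain ⟨q1, q2⟩ := m7 b hb (by simp)
      exact ⟨fun a ha => q1 a (by
          rw [Finset.union_empty]
          exact Finset.mem_union_left _ ha), fun a ha => q1 a (Finset.mem_union_right _ ha), q2⟩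
    refine ⟨(w ∪ s1 ∪ s2, r ∪ g), ⟨m3, hw1.union fun b hb => ⟨(m8 b hb).1, (m8 b hb).2.2⟩,
      hinv1.2.2.1.mono Finset.subset_union_left, fun a ha => ?_, fun a ha => ?_,
      fun a ha ha' => ?_⟩, (Finset.subset_union_left).trans Finset.subset_union_left,
      Finset.subset_union_left, ⟨x1, ?_, (k5 x1 hx1).2.1⟩, fun _ _ =>
      ⟨s2, g, Finset.subset_union_right, Finset.subset_union_right, m5⟩⟩
    · rcases Finset.mem_union.1 ha with ha | ha
      · exact hinv1.2.2.2.1 a ha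
      · have hx1' := hinv1.2.2.2.1 x1 (Finset.mem_union_right _ hx1)
        exact ⟨hx1'.1.trans ((m8 a ha).1 x1 (Finset.mem_union_right _ hx1)), m2 a ha⟩
    · rcases Finset.mem_union.1 ha with ha | ha
      · exact h5 a ha
      · exact m4 a ha
    · rcases Finset.mem_union.1 ha with ha | ha
      · rcases Finset.mem_union.1 ha' with ha' | ha'
        · exact hinv1.2.2.2.2.2 a ha ha'
        · exact lt_irrefl _ ((m8 a ha').2.1 a ha)
      · exact m6 a ha ha'
    · exact Finset.mem_union_left _ (Finset.mem_union_right _ hx1)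
  · exact ⟨(w ∪ s1, r), hinv1, Finset.subset_union_left, Finset.Subset.refl _,
      ⟨x1, Finset.mem_union_right _ hx1, (k5 x1 hx1).2.1⟩, fun h h' => absurd ⟨h, h'⟩ hT⟩

theorem exists_z (he : ∀ b n, {a | a < b ∧ e a b ≤ n}.Finite) (B : Om → ℕ → Om → Prop)
    (φ : Finset Om → Finset Om → Om) (f : Finset Om → Om) :
    ∃ z : Set Om, Good e z ∧ Sp f z ∧ InZ e B φ z := by
  classical
  obtain ⟨γ0, hγ0⟩ := exists_base he
  have h0 : ∀ (w : Finset Om) (β : Om), ∃ x, Good e (w : Set Om) → (∀ a ∈ w, γ0 < a) →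
      β < x ∧ Good e ((w ∪ insert x ∅ : Finset Om) : Set Om) := by
    intro w β
    by_cases h : Good e (w : Set Om) ∧ ∀ a ∈ w, γ0 < a
    · obtain ⟨x, hx⟩ := hγ0 w h.1 h.2 β
      exact ⟨x, fun _ _ => hx⟩
    · exact ⟨β, fun h1 h2 => absurd ⟨h1, h2⟩ h⟩
  choose X hX using h0
  have h1 : ∀ u : Finset Om, ∃ c, f u < c ∧ ∀ w ∈ u.powerset, ∀ β ∈ u, X w β < c := by
    intro u
    obtain ⟨c, hc⟩ := bnd (ι := Option ({w : Finset Om // w ∈ u.powerset} × {β : Om // β ∈ u}))
      (fun i => i.elim (f u) fun q => X q.1.1 q.2.1)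
    exact ⟨c, hc none, fun w hw β hβ => hc (some (⟨w, hw⟩, ⟨β, hβ⟩))⟩
  choose F hF1 hF2 using h1
  obtain ⟨l, hγl, hl⟩ := exists_closed F γ0
  have hf : ∀ u : Finset Om, (∀ x ∈ u, x < l) → f u < l := fun u hu =>
    (hF1 u).trans (hl u hu)
  have hl' : ∀ w : Finset Om, Good e (w : Set Om) → (∀ a ∈ w, γ0 < a ∧ a < l) →
      ∀ β, β < l → ∃ x, β < x ∧ x < l ∧ Good e ((w ∪ insert x ∅ : Finset Om) : Set Om) := by
    intro w hw hwl β hβ
    obtain ⟨h3, h4⟩ := hX w β hw fun a ha => (hwl a ha).1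
    refine ⟨X w β, h3, ?_, h4⟩
    refine (hF2 (insert β w) w (Finset.mem_powerset.2 (Finset.subset_insert _ _)) β
      (Finset.mem_insert_self _ _)).trans (hl _ fun x hx => ?_)
    rcases Finset.mem_insert.1 hx with rfl | hx
    · exact hβ
    · exact (hwl x hx).2
  -- the first element
  obtain ⟨β0, hβ0l, hβ0, hβ0'⟩ := exists_max_lt hγl {f ∅} (by
    intro x hx
    rw [Finset.mem_singleton] at hx
    rw [hx]
    exact hf ∅ (by simp))
  obtain ⟨x0, hx0, hx0l, -⟩ := hl' ∅ good_empty (by simp) β0 hβ0l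
  have hinv0 : Inv e f γ0 l ({x0}, ∅) := by
    refine ⟨good_singleton x0, ?_, ⟨x0, by simp⟩, ?_, by simp, by simp⟩
    · intro b hb u hu
      simp only [Finset.coe_singleton, mem_singleton_iff] at hb
      subst hb
      have hu0 : u = ∅ := by
        refine Finset.eq_empty_of_forall_notMem fun a ha => ?_
        obtain ⟨h5, h6⟩ := hu a ha
        simp only [Finset.coe_singleton, mem_singleton_iff] at h5
        rw [h5] at h6
        exact lt_irrefl _ h6
      rw [hu0]
      exact (hβ0' _ (by simp)).trans_lt hx0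
    · intro a ha
      rw [Finset.mem_singleton] at ha
      rw [ha]
      exact ⟨hβ0.trans_lt hx0, hx0l⟩
  -- the enumeration of the tasks
  have hne : Nonempty (ℕ × {β : Om // β < l}) := ⟨(0, ⟨γ0, hγl⟩)⟩
  have hcl : Countable {β : Om // β < l} := (countable_Iio l).to_subtype
  obtain ⟨t, ht⟩ := exists_surjective_nat (ℕ × {β : Om // β < l})
  have hstep : ∀ (k : ℕ) (p : {p : Finset Om × Finset Om // Inv e f γ0 l p}),
      ∃ p' : {p : Finset Om × Finset Om // Inv e f γ0 l p}, p.1.1 ⊆ p'.1.1 ∧ p.1.2 ⊆ p'.1.2 ∧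
        (∃ x ∈ p'.1.1, (t k).2.1 < x) ∧ ((∀ a ∈ p.1.1, (t k).2.1 < a) →
          Loc e l (t k).2.1 (fun s g => B l (t k).1 (φ s g)) →
          ∃ s g : Finset Om, s ⊆ p'.1.1 ∧ g ⊆ p'.1.2 ∧ B l (t k).1 (φ s g)) := by
    intro k p
    obtain ⟨p', h5, h6⟩ := step hf hl' (fun s g => B l (t k).1 (φ s g)) (t k).2.1 (t k).2.2 p.1 p.2
    exact ⟨⟨p', h5⟩, h6⟩
  choose nx n1 n2 n3 n4 using hstep
  let c : ℕ → {p : Finset Om × Finset Om // Inv e f γ0 l p} := fun k =>
    Nat.rec ⟨_, hinv0⟩ (fun k p => nx k p) k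
  have hc : ∀ k, c (k + 1) = nx k (c k) := fun k => rfl
  have hm1 : ∀ k l, k ≤ l → (c k).1.1 ⊆ (c l).1.1 := by
    intro k l hkl
    induction l, hkl using Nat.le_induction with
    | base => exact Finset.Subset.refl _
    | succ l _ ih => exact ih.trans (hc l ▸ n1 l (c l))
  have hm2 : ∀ k l, k ≤ l → (c k).1.2 ⊆ (c l).1.2 := by
    intro k l hkl
    induction l, hkl using Nat.le_induction with
    | base => exact Finset.Subset.refl _
    | succ l _ ih => exact ih.trans (hc l ▸ n2 l (c l))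
  have hfin : ∀ u : Finset Om, (∀ a ∈ u, a ∈ ⋃ k, ((c k).1.1 : Set Om)) →
      ∃ k, ∀ a ∈ u, a ∈ (c k).1.1 := by
    intro u
    induction u using Finset.induction_on with
    | empty => exact fun _ => ⟨0, by simp⟩
    | insert a u _ ih =>
      intro h
      obtain ⟨k, hk⟩ := ih fun b hb => h b (Finset.mem_insert_of_mem hb)
      obtain ⟨k', hk'⟩ := mem_iUnion.1 (h a (Finset.mem_insert_self _ _))
      refine ⟨max k k', fun b hb => ?_⟩
      rcases Finset.mem_insert.1 hb with rfl | hb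
      · exact hm1 k' _ (le_max_right _ _) (Finset.mem_coe.1 hk')
      · exact hm1 k _ (le_max_left _ _) (hk b hb)
  refine ⟨⋃ k, ((c k).1.1 : Set Om), Good.union (W := fun k => (c k).1.1)
    (fun k => hm1 k (k + 1) (Nat.le_succ k)) fun k => (c k).2.1, ?_, ?_, l, ?_, ?_, ?_⟩
  · intro b hb u hu
    obtain ⟨k, hk⟩ := hfin (insert b u) (by
      intro a ha
      rcases Finset.mem_insert.1 ha with rfl | ha
      · exact hb
      · exact (hu a ha).1)
    exact (c k).2.2.1 b (Finset.mem_coe.2 (hk b (Finset.mem_insert_self _ _))) u fun a ha =>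
      ⟨Finset.mem_coe.2 (hk a (Finset.mem_insert_of_mem ha)), (hu a ha).2⟩
  · obtain ⟨x, hx⟩ := (c 0).2.2.2.1
    exact ⟨x, mem_iUnion.2 ⟨0, hx⟩⟩
  · intro x hx
    obtain ⟨k, hk⟩ := mem_iUnion.1 hx
    exact ((c k).2.2.2.2.1 x hk).2
  · intro b hb
    obtain ⟨k, hk⟩ := ht (0, ⟨b, hb⟩)
    obtain ⟨x, hx, hx'⟩ := n3 k (c k)
    rw [hk] at hx'
    exact ⟨x, mem_iUnion.2 ⟨k + 1, by rw [hc]; exact hx⟩, hx'⟩
  · intro m b hb hloc
    have hbl : b < l := by
      obtain ⟨x, hx⟩ := (c 0).2.2.2.1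
      exact (hb x (mem_iUnion.2 ⟨0, hx⟩)).trans ((c 0).2.2.2.2.1 x hx).2
    obtain ⟨k, hk⟩ := ht (m, ⟨b, hbl⟩)
    have h7 := n4 k (c k)
    rw [hk] at h7
    obtain ⟨s, g, h8, h9, h10⟩ := h7 (fun a ha => hb a (mem_iUnion.2 ⟨k, ha⟩)) hloc
    rw [← hc] at h8 h9
    refine ⟨s, g, fun a ha => mem_iUnion.2 ⟨k + 1, Finset.mem_coe.2 (h8 (Finset.mem_coe.1 ha))⟩,
      fun a ha => ⟨(c (k + 1)).2.2.2.2.2.1 a (h9 ha), fun hau => ?_⟩, h10⟩
    obtain ⟨j, hj⟩ := mem_iUnion.1 hau
    have h11 := hm1 j (max j (k + 1)) (le_max_left _ _) (Finset.mem_coe.1 hj)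
    have h12 := hm2 (k + 1) (max j (k + 1)) (le_max_right _ _) (h9 ha)
    exact (c (max j (k + 1))).2.2.2.2.2.2 a h12 h11


/-! ### The zero-one law on `Z` -/

/-- If `O` is not positive, then all sufficiently sparse points are outside `O`. -/
theorem null_case {O : Set (K e)} (hO : IsOpen O) (h : ∀ n, ¬ Fub n (Q0 O) ∅) :
    ∃ f : Finset Om → Om, ∀ z : K e, Sp f (supp z) → z ∉ O := by
  classical
  have h1 : ∀ (s : Finset Om) (k : ℕ), ∃ β, ¬ Fub (k + 1) (Q0 O) s →
      ∀ x, β < x → ¬ Fub k (Q0 O) (insert x s) := by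
    intro s k
    by_cases hk : Fub (k + 1) (Q0 O) s
    · exact ⟨Classical.arbitrary Om, fun h => absurd hk h⟩
    · have := hk
      simp only [Fub] at this
      push Not at this
      obtain ⟨β, hβ⟩ := this
      exact ⟨β, fun _ => hβ⟩
  choose N hN using h1
  have h2 : ∀ u : Finset Om, ∃ a, ∀ k : ℕ, N u k < a := fun u => bnd _
  choose f hf using h2
  refine ⟨f, fun z hz hzO => ?_⟩
  obtain ⟨s, g, hzs, hsub⟩ := exists_box hO hzO
  have claim : ∀ s : Finset Om, (s : Set Om) ⊆ supp z → ∀ k, ¬ Fub k (Q0 O) s := by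
    intro s
    induction s using Finset.induction_on_max with
    | empty => exact fun _ k => h k
    | insert x s hx ih =>
      intro hs k
      rw [Finset.coe_insert, Set.insert_subset_iff] at hs
      refine hN s k (ih hs.2 (k + 1)) x ?_
      exact (hf s k).trans (hz x hs.1 s fun a ha => ⟨hs.2 ha, hx a ha⟩)
  have hs : (s : Set Om) ⊆ supp z := fun a ha => hzs.1 a ha
  refine claim s hs 0 ⟨(good_supp z).mono hs, g, hsub, fun a hag has => ?_⟩
  have h4 := hzs.1 a has
  rw [hzs.2 a hag] at h4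
  exact absurd h4 (by simp)

/-- Guessing: `B` is a `◊*`-sequence. -/
def Guess (B : Om → ℕ → Om → Prop) : Prop :=
  ∀ X : Om → Prop, ∃ C : Om → Prop,
    (∀ a, ∃ b, a < b ∧ C b) ∧
    (∀ a, (∃ b, b < a) → (∀ b, b < a → ∃ c, (b < c ∧ c < a) ∧ C c) → C a) ∧
    ∀ a, C a → ∃ n, ∀ x, x < a → (X x ↔ B a n x)

/-- If `O` is positive, then all sufficiently sparse points of `Z` are in `O`. -/
theorem positive_case (he : ∀ b n, {a | a < b ∧ e a b ≤ n}.Finite) {B : Om → ℕ → Om → Prop}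
    (hB : Guess B) {φ : Finset Om → Finset Om → Om}
    (hφ : ∀ s g s' g', φ s g = φ s' g' → s = s' ∧ g = g') {O : Set (K e)} {n : ℕ}
    (h : Fub n (Q0 O) ∅) :
    ∃ f : Finset Om → Om, ∀ z : K e, Sp f (supp z) → InZ e B φ (supp z) → z ∈ O := by
  classical
  obtain ⟨γ, hγ⟩ := exists_good_base he h
  obtain ⟨C, hC1, hC2, hC3⟩ := hB fun x => ∃ s g, φ s g = x ∧ box e s g ⊆ O
  -- the closure functions
  have h1 : ∀ (k : ℕ) (w s : Finset Om) (β : Om), ∃ x, Fub (k + 1) (Q1 O w) s →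
      β < x ∧ Fub k (Q1 O w) (insert x s) := by
    intro k w s β
    by_cases hk : Fub (k + 1) (Q1 O w) s
    · obtain ⟨x, hx⟩ := hk β
      exact ⟨x, fun _ => hx⟩
    · exact ⟨β, fun h => absurd h hk⟩
  choose X hX using h1
  have h2 : ∀ w s : Finset Om, ∃ g : Finset Om, Q1 O w s → box e s g ⊆ O ∧ ∀ a ∈ g, a ∉ w ∪ s := by
    intro w s
    by_cases hk : Q1 O w s
    · obtain ⟨-, g, hg⟩ := hk
      exact ⟨g, fun _ => hg⟩
    · exact ⟨∅, fun h => absurd h hk⟩
  choose G hG using h2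
  have h3 : ∀ u : Finset Om, ∃ c, (∀ k, ∀ w ∈ u.powerset, ∀ s ∈ u.powerset, ∀ β ∈ u,
      X k w s β < c) ∧ (∀ w ∈ u.powerset, ∀ s ∈ u.powerset, ∀ a ∈ G w s, a < c) ∧
      ∀ s ∈ u.powerset, ∀ g ∈ u.powerset, φ s g < c := by
    intro u
    obtain ⟨c1, hc1⟩ := bnd (ι := ℕ × {w : Finset Om // w ∈ u.powerset} ×
      {w : Finset Om // w ∈ u.powerset} × {β : Om // β ∈ u}) fun q => X q.1 q.2.1.1 q.2.2.1.1
        q.2.2.2.1
    obtain ⟨c2, hc2⟩ := bnd (ι := Σ q : {w : Finset Om // w ∈ u.powerset} ×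
      {w : Finset Om // w ∈ u.powerset}, {a : Om // a ∈ G q.1.1 q.2.1}) fun q => q.2.1
    obtain ⟨c3, hc3⟩ := bnd (ι := {w : Finset Om // w ∈ u.powerset} ×
      {w : Finset Om // w ∈ u.powerset}) fun q => φ q.1.1 q.2.1
    refine ⟨max c1 (max c2 c3), fun k w hw s hs β hβ => ?_, fun w hw s hs a ha => ?_,
      fun s hs g hg => ?_⟩
    · exact (hc1 (k, ⟨w, hw⟩, ⟨s, hs⟩, ⟨β, hβ⟩)).trans_le (le_max_left _ _)
    · exact (hc2 ⟨(⟨w, hw⟩, ⟨s, hs⟩), ⟨a, ha⟩⟩).trans_le
        ((le_max_left _ _).trans (le_max_right _ _))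
    · exact (hc3 (⟨s, hs⟩, ⟨g, hg⟩)).trans_le ((le_max_right _ _).trans (le_max_right _ _))
  choose H hH1 hH2 hH3 using h3
  have h4 : ∀ a : Om, ∃ c, ∀ u : Finset Om, (∀ x ∈ u, x ≤ a) → H u < c := by
    intro a
    have hc : {u : Finset Om | (u : Set Om) ⊆ Iic a}.Countable := countable_finsets (by
      have : Iic a = insert a (Iio a) := by
        ext x
        simp [le_iff_eq_or_lt]
      rw [this]
      exact (countable_Iio a).insert _)
    obtain ⟨c, hc'⟩ := exists_bound (H '' {u : Finset Om | (u : Set Om) ⊆ Iic a}) (hc.image H)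
    exact ⟨c, fun u hu => hc' _ ⟨u, hu, rfl⟩⟩
  choose H' hH' using h4
  choose C' hC'1 hC'2 using hC1
  have h5 : ∀ u : Finset Om, ∃ c, γ < c ∧ ∀ a ∈ u, H' a < c ∧ C' a < c := by
    intro u
    obtain ⟨c1, hc1⟩ := bnd (ι := {a : Om // a ∈ u}) fun a => H' a.1
    obtain ⟨c2, hc2⟩ := bnd (ι := {a : Om // a ∈ u}) fun a => C' a.1
    obtain ⟨c3, hc3⟩ := bnd (ι := Unit) fun _ => γ
    exact ⟨max c1 (max c2 c3), (hc3 ()).trans_le ((le_max_right _ _).trans (le_max_right _ _)),
      fun a ha => ⟨(hc1 ⟨a, ha⟩).trans_le (le_max_left _ _),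
        (hc2 ⟨a, ha⟩).trans_le ((le_max_left _ _).trans (le_max_right _ _))⟩⟩
  choose f hf1 hf2 using h5
  refine ⟨f, fun z hz hZ => ?_⟩
  obtain ⟨⟨x0, hx0⟩, l, hl1, hl2, hl3⟩ := hZ
  -- the elements of `z` are above `γ`
  have hzγ : ∀ x ∈ supp z, γ < x := fun x hx => (hf1 ∅).trans (hz x hx ∅ (by simp))
  -- closure properties of `l`
  have hnext : ∀ x ∈ supp z, ∃ y ∈ supp z, H' x < y ∧ C' x < y := by
    intro x hx
    obtain ⟨y, hy, hxy⟩ := hl2 x (hl1 x hx)
    have h6 : f {x} < y := hz y hy {x} fun a ha => by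
      rw [Finset.mem_singleton] at ha
      rw [ha]
      exact ⟨hx, hxy⟩
    obtain ⟨h7, h8⟩ := hf2 {x} x (Finset.mem_singleton_self x)
    exact ⟨y, hy, h7.trans h6, h8.trans h6⟩
  have hCl : C l := by
    refine hC2 l ⟨x0, hl1 x0 hx0⟩ fun b hb => ?_
    obtain ⟨x, hx, hbx⟩ := hl2 b hb
    obtain ⟨y, hy, -, hxy⟩ := hnext x hx
    exact ⟨C' x, ⟨hbx.trans (hC'1 x), hxy.trans (hl1 y hy)⟩, hC'2 x⟩
  have hHl : ∀ u : Finset Om, (∀ x ∈ u, x < l) → H u < l := by
    intro u hu
    obtain ⟨β, hβl, -, hβ⟩ := exists_max_lt (hl1 x0 hx0) u hu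
    obtain ⟨x, hx, hβx⟩ := hl2 β hβl
    obtain ⟨y, hy, hxy, -⟩ := hnext x hx
    exact (hH' x u fun a ha => (hβ a ha).trans hβx.le).trans (hxy.trans (hl1 y hy))
  have hφl : ∀ s g : Finset Om, (∀ x ∈ s, x < l) → (∀ x ∈ g, x < l) → φ s g < l := by
    intro s g hs hg
    refine (hH3 (s ∪ g) s (Finset.mem_powerset.2 Finset.subset_union_left) g
      (Finset.mem_powerset.2 Finset.subset_union_right)).trans (hHl _ fun x hx => ?_)
    rcases Finset.mem_union.1 hx with hx | hx
    · exact hs x hx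
    · exact hg x hx
  -- the task
  obtain ⟨m, hm⟩ := hC3 l hCl
  have hmφ : ∀ s g : Finset Om, (∀ x ∈ s, x < l) → (∀ x ∈ g, x < l) →
      (box e s g ⊆ O ↔ B l m (φ s g)) := by
    intro s g hs hg
    rw [← hm _ (hφl s g hs hg)]
    constructor
    · intro h6
      exact ⟨s, g, rfl, h6⟩
    · rintro ⟨s', g', h6, h7⟩
      obtain ⟨rfl, rfl⟩ := hφ _ _ _ _ h6
      exact h7
  have hloc : Loc e l γ fun s g => B l m (φ s g) := by
    refine ⟨n, fun w hw hwl => ?_⟩
    have claim : ∀ (k : ℕ) (s : Finset Om), (∀ a ∈ s, a < l) → Fub k (Q1 O w) s →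
        FubL l k (QL e l (fun s g => B l m (φ s g)) w) s := by
      intro k
      induction k with
      | zero =>
        intro s hs hQ
        obtain ⟨h6, h7⟩ := hG w s hQ
        have hgl : ∀ a ∈ G w s, a < l := by
          intro a ha
          refine (hH2 (w ∪ s) w (Finset.mem_powerset.2 Finset.subset_union_left) s
            (Finset.mem_powerset.2 Finset.subset_union_right) a ha).trans (hHl _ fun x hx => ?_)
          rcases Finset.mem_union.1 hx with hx | hx
          · exact (hwl x hx).2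
          · exact hs x hx
        exact ⟨hQ.1, G w s, hgl, (hmφ s _ hs hgl).1 h6, h7⟩
      | succ k ih =>
        intro s hs hQ β hβ
        obtain ⟨h6, h7⟩ := hX k w s β hQ
        have hxl : X k w s β < l := by
          refine (hH1 (insert β (w ∪ s)) k w (Finset.mem_powerset.2
            (Finset.subset_union_left.trans (Finset.subset_insert _ _))) s
            (Finset.mem_powerset.2 (Finset.subset_union_right.trans (Finset.subset_insert _ _)))
            β (Finset.mem_insert_self _ _)).trans (hHl _ fun x hx => ?_)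
          rcases Finset.mem_insert.1 hx with rfl | hx
          · exact hβ
          · rcases Finset.mem_union.1 hx with hx | hx
            · exact (hwl x hx).2
            · exact hs x hx
        refine ⟨X k w s β, h6, hxl, ih _ (fun a ha => ?_) h7⟩
        rcases Finset.mem_insert.1 ha with rfl | ha
        · exact hxl
        · exact hs a ha
    exact claim n ∅ (by simp) (hγ w hw fun a ha => (hwl a ha).1)
  obtain ⟨s, g, h6, h7, h8⟩ := hl3 m γ hzγ hloc
  have h9 : box e s g ⊆ O := (hmφ s g (fun a ha => hl1 a (h6 ha)) fun a ha => (h7 a ha).1).2 h8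
  refine h9 ⟨fun a ha => h6 ha, fun a ha => ?_⟩
  have h10 := (h7 a ha).2
  simpa [supp] using h10

/-! ### The maximal family of closed sets -/

/-- Every maximal centered family of closed sets with the countable intersection property has
nonempty intersection. -/
def AlphaRealcompact (Y : Type) [TopologicalSpace Y] : Prop :=
  ∀ F : Set (Set Y), Maximal (fun G : Set (Set Y) => (∀ A ∈ G, IsClosed A) ∧
      ∀ H : Finset (Set Y), (↑H : Set (Set Y)) ⊆ G → (⋂₀ (↑H : Set (Set Y))).Nonempty) F →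
    (∀ H : Set (Set Y), H ⊆ F → H.Countable → (⋂₀ H).Nonempty) → (⋂₀ F).Nonempty

/-- Every subspace is α-realcompact. -/
def HereditarilyAlphaRealcompact (X : Type) [TopologicalSpace X] : Prop :=
  ∀ S : Set X, AlphaRealcompact S

theorem exists_coding : ∃ φ : Finset Om → Finset Om → Om,
    ∀ s g s' g', φ s g = φ s' g' → s = s' ∧ g = g' := by
  have h : #(Finset Om × Finset Om) ≤ #Om := by
    rw [Cardinal.mk_prod, Cardinal.lift_id, Cardinal.mk_finset_of_infinite, mk_Om,
      Cardinal.mul_eq_self aleph0_lt_aleph_one.le]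
  obtain ⟨ψ⟩ := h
  refine ⟨fun s g => ψ (s, g), fun s g s' g' h => ?_⟩
  have := ψ.injective h
  exact ⟨congrArg Prod.fst this, congrArg Prod.snd this⟩

theorem not_hereditarily (he : ∀ b n, {a | a < b ∧ e a b ≤ n}.Finite) (hD : DiamondStar) :
    ¬ HereditarilyAlphaRealcompact (K e) := by
  classical
  obtain ⟨B, hB⟩ := hD
  obtain ⟨φ, hφ⟩ := exists_coding
  let Z : Set (K e) := {x | InZ e B φ (supp x)}
  let Zf : (Finset Om → Om) → Set Z := fun f => {x | Sp f (supp x.1)}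
  let F : Set (Set Z) := {A | IsClosed A ∧ ∃ f, Zf f ⊆ A}
  have hZc : ∀ f, IsClosed (Zf f) := fun f => (isClosed_sp f).preimage continuous_subtype_val
  have hZne : ∀ f, (Zf f).Nonempty := by
    intro f
    obtain ⟨z, h1, h2, h3⟩ := exists_z he B φ f
    refine ⟨⟨mk z h1, ?_⟩, ?_⟩
    · show InZ e B φ (supp (mk z h1))
      rw [supp_mk]
      exact h3
    · show Sp f (supp (mk z h1))
      rw [supp_mk]
      exact h2
  -- countable intersections
  have hcip : ∀ H : Set (Set Z), H ⊆ F → H.Countable → (⋂₀ H).Nonempty := by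
    intro H hH hHc
    have : Countable H := hHc.to_subtype
    choose f hf using fun A : H => (hH A.2).2
    have h1 : ∀ u, ∃ a, ∀ A : H, f A u < a := fun u => bnd fun A => f A u
    choose f' hf' using h1
    obtain ⟨x, hx⟩ := hZne f'
    refine ⟨x, fun A hA => hf ⟨A, hA⟩ ?_⟩
    exact Sp.anti (fun u => (hf' u ⟨A, hA⟩).le) hx
  intro hh
  have hmax : Maximal (fun G : Set (Set Z) => (∀ A ∈ G, IsClosed A) ∧
      ∀ H : Finset (Set Z), (↑H : Set (Set Z)) ⊆ G → (⋂₀ (↑H : Set (Set Z))).Nonempty) F := by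
    refine ⟨⟨fun A hA => hA.1, fun H hH => hcip _ hH H.finite_toSet.countable⟩, ?_⟩
    rintro G ⟨hG1, hG2⟩ hFG A hA
    refine ⟨hG1 A hA, ?_⟩
    obtain ⟨E, hE, rfl⟩ := isClosed_induced_iff.1 (hG1 A hA)
    by_cases hn : ∃ n, Fub n (Q0 Eᶜ) ∅
    · exfalso
      obtain ⟨n, hn⟩ := hn
      obtain ⟨f, hf⟩ := positive_case he hB hφ hn
      have h1 : Zf f ∈ G := hFG ⟨hZc f, f, Subset.rfl⟩
      obtain ⟨x, hx⟩ := hG2 {Zf f, Subtype.val ⁻¹' E} (by
        intro A' hA'
        simp only [Finset.coe_insert, Finset.coe_singleton, mem_insert_iff,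
          mem_singleton_iff] at hA'
        rcases hA' with rfl | rfl
        · exact h1
        · exact hA)
      have h2 : x ∈ Zf f := hx _ (by simp)
      have h3 : x ∈ (Subtype.val ⁻¹' E : Set Z) := hx _ (by simp)
      exact hf x.1 h2 x.2 h3
    · push Not at hn
      obtain ⟨f, hf⟩ := null_case hE.isOpen_compl hn
      refine ⟨f, fun x hx => ?_⟩
      by_contra hc
      exact hf x.1 hx hc
  obtain ⟨x, hx⟩ := hh Z F hmax hcip
  obtain ⟨⟨y, hy⟩, -⟩ := x.2
  have h1 : x ∈ Zf fun _ => y := hx _ ⟨hZc _, _, Subset.rfl⟩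
  exact lt_irrefl y (h1 y hy ∅ (by simp))

end Pool.Agent.H739.AR
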